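import Pool.Agent.LibLH35.Defs

namespace LS35.Tri

variable {V F : Type} [Fintype V] [Fintype F] (T : Tri V F)

open Classical in
/-- Situation of case A: the disk `S` is the union of `Q` (base `e`) and `S \ Q` (base `b`), which have only the ends of `e` in common. -/
structure SA (S Q : Finset F) (b e : Dart F) (y y' x : Fin 3 → V → ℝ) : Prop where
  hb : T.Bd S b
  hbQ : b.1 ∉ Q
  hQS : Q ⊆ S
  he : e.1 ∈ Q
  he1 : (T.op e).1 ∈ S
  he2 : (T.op e).1 ∉ Q
  hcom : ∀ v, T.InV Q v → T.InV (S \ Q) v → v = T.tail e ∨ v = T.head e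
  hy : T.Rz (S \ Q) (T.tail b) (T.head b) y
  hy' : T.Rz Q (T.tail e) (T.head e) y'
  hx : T.Rz S (T.tail b) (T.head b) x
  lQ : ∀ f ∈ Q, ∀ r, T.Lb y' f r → T.Lb x f r
  lS : ∀ f ∈ S \ Q, ∀ r, T.Lb y f r → T.Lb x f r

/-- Situation of case B: `x` extends `y` from the faces of `S` not at `v = tail dv` to `S`. -/
structure SB (S : Finset F) (b dv dz : Dart F) (y x : Fin 3 → V → ℝ) : Prop where
  h : T.NC S b dv dz
  hy : T.Rz (T.far S (T.tail dv)) (T.tail b) (T.head b) y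
  hx : T.Rz S (T.tail b) (T.head b) x
  lf : ∀ f ∈ T.far S (T.tail dv), ∀ r, T.Lb y f r → T.Lb x f r
  ln : ∀ f ∈ T.near S (T.tail dv), ∀ r, T.vt f r = T.tail dv → T.Lb x f r

end LS35.Tri
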