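import Pool.Agent.LibLS35.D8
import Pool.Agent.LibLS35.D9

/-! LH35: two closed sets for every face of a realizer (MP_0fb298_co, exponent 1/2). -/

namespace LS35.Tri

variable {V F : Type} [Fintype V] [Fintype F] (T : Tri V F)

/-- `r` is the label of the face `h` for the functions `x`: `x i` is largest at the corner `i + r` -/
def Lb (x : Fin 3 → V → ℝ) (h : F) (r : Fin 3) : Prop :=
  ∀ i j : Fin 3, j ≠ i → x i (T.vt h (j + r)) < x i (T.vt h (i + r))

/-- closed pair: `A` is closed under (top corner) to (corner 2), `B` under (top corner) to (corner 1) -/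
structure CP (S : Finset F) (s t : V) (x : Fin 3 → V → ℝ) (A B : V → Prop) : Prop where
  disj : ∀ v, A v → B v → False
  sA : ¬ A s
  tB : ¬ B t
  suA : ∀ v, A v → T.InV S v
  suB : ∀ v, B v → T.InV S v
  clA : ∀ h ∈ S, ∀ r, T.Lb x h r → A (T.vt h r) → A (T.vt h (r + 2))
  clB : ∀ h ∈ S, ∀ r, T.Lb x h r → B (T.vt h r) → B (T.vt h (r + 1))

/-- face pairs -/
def FP (S : Finset F) (s t : V) (x : Fin 3 → V → ℝ) : Prop :=
  ∀ f ∈ S, ∀ r, T.Lb x f r → ∃ A B : V → Prop, T.CP S s t x A B ∧ A (T.vt f (r + 2)) ∧ B (T.vt f (r + 1))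

/-- edge pairs -/
def EP (S : Finset F) (b : Dart F) (x : Fin 3 → V → ℝ) : Prop :=
  ∀ e, T.Bd S e → e ≠ b → ∃ A B : V → Prop, T.CP S (T.tail b) (T.head b) x A B ∧ A (T.tail e) ∧ B (T.head e) ∧
    ∀ d, T.Bd S d → d ≠ b → d ≠ e → (A (T.tail d) ∧ A (T.head d)) ∨ (B (T.tail d) ∧ B (T.head d))

theorem lb_unique {x : Fin 3 → V → ℝ} {h : F} {r r' : Fin 3} (h1 : T.Lb x h r) (h2 : T.Lb x h r') : r = r' := by
  by_contra hne
  have e1 := h1 0 (r' - r) (fun hc => hne (sub_eq_zero.1 hc).symm)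
  have e2 := h2 0 (r - r') (fun hc => hne (sub_eq_zero.1 hc))
  rw [sub_add_cancel, zero_add] at e1 e2
  exact absurd e1 (not_lt.2 e2.le)

theorem rz_bounds {S : Finset F} {s t : V} {x : Fin 3 → V → ℝ} (h : T.Rz S s t x) (v : V) (hv : T.InV S v) :
    0 ≤ x 0 v ∧ (0 ≤ x 1 v ∧ x 1 v ≤ 1) ∧ (0 ≤ x 2 v ∧ x 2 v ≤ 1) := by
  by_cases h1 : v = s
  · subst h1
    rw [h.x0s, h.x1s, h.x2s]
    norm_num
  · by_cases h2 : v = t
    · subst h2
      rw [h.x0t, h.x1t, h.x2t]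
      norm_num
    · have a0 := h.pos0 v hv h1 h2
      have a1 := h.pos1 v hv h1 h2
      have a2 := h.pos2 v hv h1 h2
      exact ⟨a0.le, ⟨a1.1.le, a1.2.le⟩, ⟨a2.1.le, a2.2.le⟩⟩

/-- the top corner is not an end of the base -/
theorem top_ne {S : Finset F} {s t : V} {x : Fin 3 → V → ℝ} (h : T.Rz S s t x) {f : F} (hf : f ∈ S) {r : Fin 3}
    (hr : T.Lb x f r) : T.vt f r ≠ s ∧ T.vt f r ≠ t := by
  have h1 := hr 0 1 (by decide)
  have h2 := (T.rz_bounds h (T.vt f (1 + r)) ⟨f, hf, _, rfl⟩).1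
  rw [zero_add] at h1
  constructor
  · intro hc
    rw [hc, h.x0s] at h1
    linarith
  · intro hc
    rw [hc, h.x0t] at h1
    linarith

/-- corner 2 is not the start of the base -/
theorem two_ne {S : Finset F} {s t : V} {x : Fin 3 → V → ℝ} (h : T.Rz S s t x) {f : F} (hf : f ∈ S) {r : Fin 3}
    (hr : T.Lb x f r) : T.vt f (r + 2) ≠ s := by
  have h1 := hr 2 0 (by decide)
  have h2 := (T.rz_bounds h (T.vt f (0 + r)) ⟨f, hf, _, rfl⟩).2.2.1
  rw [add_comm 2 r] at h1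
  intro hc
  rw [hc, h.x2s] at h1
  linarith

/-- labels of `x` and `y` agree on `S` -/
theorem lb_back {S : Finset F} {s t : V} {x y : Fin 3 → V → ℝ} (h : T.Rz S s t y)
    (hl : ∀ f ∈ S, ∀ r, T.Lb y f r → T.Lb x f r) {f : F} (hf : f ∈ S) {r : Fin 3} (hr : T.Lb x f r) : T.Lb y f r := by
  obtain ⟨r', hr'⟩ := h.lab f hf
  have h2 : T.Lb y f r' := hr'
  have h1 := hl f hf r' h2
  rw [T.lb_unique hr h1]
  exact h2

end LS35.Tri
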