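import Pool.Agent.LibLS35.P1
import Pool.Agent.LibLS35.P2
import Pool.Agent.LibLS35.O1
import Pool.Agent.LibLS35.O2

/-! Row W9. The finer orders. `stab2`: as P2 (`stab_antichain`) with `L = {v | ∃ f ∈ A, ReflTransGen (step u i) (u f i) v}`. `two_orders`: Dilworth (O2 `dilworth`) for `r`, every colour class is an antichain of `q`. -/

namespace LS35

/-- one step: from corner `i+1` to corner `i` of a face -/
def step {V F : Type} (u : F → Fin 3 → V) (i : Fin 3) (a b : V) : Prop := ∃ h, a = u h (i + 1) ∧ b = u h i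

/-- the finer order number `i` on the faces -/
def Oe {V F : Type} (u : F → Fin 3 → V) (i : Fin 3) (f g : F) : Prop :=
  Relation.ReflTransGen (step u i) (u f i) (u g (i + 1))

private theorem w9_ne (i : Fin 3) : i + 1 ≠ i := by
  revert i
  decide

theorem oe_od {V F : Type} (x : Fin 3 → V → ℝ) (u : F → Fin 3 → V) (hl : ∀ f i j, j ≠ i → x i (u f j) < x i (u f i))
    (i : Fin 3) (f g : F) (h : Oe u i f g) : Od x u i f g := by
  have hij : i + 1 ≠ i := w9_ne i
  have key : ∀ b : V, Relation.ReflTransGen (step u i) (u f i) b →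
      x i (u f i) ≤ x i b ∧ x (i + 1) b ≤ x (i + 1) (u f i) := by
    intro b hb
    induction hb with
    | refl => exact ⟨le_rfl, le_rfl⟩
    | tail _ hs ih =>
      obtain ⟨k, rfl, rfl⟩ := hs
      exact ⟨ih.1.trans (hl k i (i + 1) hij).le, (hl k (i + 1) i hij.symm).le.trans ih.2⟩
  exact key _ h

theorem oe_trans {V F : Type} (u : F → Fin 3 → V) (i : Fin 3) (f g h : F) (h1 : Oe u i f g) (h2 : Oe u i g h) :
    Oe u i f h :=
  (Relation.ReflTransGen.tail h1 ⟨g, rfl, rfl⟩).trans h2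

theorem two_orders {α : Type} [DecidableEq α] (r q : α → α → Prop) (hi : ∀ a, ¬ r a a)
    (ht : ∀ a b c, r a b → r b c → r a c) (hq : ∀ a, ¬ q a a) (M : Finset α) (n : ℕ)
    (he : ∀ a ∈ M, ∀ b ∈ M, (r a b ∨ r b a) → ¬ q a b)
    (h1 : ∀ A, A ⊆ M → (∀ a ∈ A, ∀ b ∈ A, ¬ r a b) → A.card ≤ n)
    (h2 : ∀ A, A ⊆ M → (∀ a ∈ A, ∀ b ∈ A, ¬ q a b) → A.card ≤ n) : M.card ≤ n ^ 2 := by
  obtain ⟨χ, hχ1, hχ2⟩ := dilworth r hi ht M n h1
  have h3 := Finset.card_le_mul_card_image_of_maps_to (s := M) (t := Finset.range n) (f := χ)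
    (fun a ha => Finset.mem_range.2 (hχ1 a ha)) n (fun k _ => by
      refine h2 _ (Finset.filter_subset _ _) (fun a ha b hb => ?_)
      rw [Finset.mem_filter] at ha hb
      by_cases hab : a = b
      · rw [hab]; exact hq b
      · exact he a ha.1 b hb.1 (hχ2 a ha.1 b hb.1 hab (ha.2.trans hb.2.symm)))
  rw [Finset.card_range] at h3
  rw [pow_two]
  exact h3

namespace Tri

variable {V F : Type} [Fintype V] [Fintype F] (T : Tri V F)

theorem stab2 (f0 : F) (x : Fin 3 → V → ℝ) (u : F → Fin 3 → V) (hR : T.Realizer f0 x u) (i : Fin 3)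
    (A : Finset F) (hA : ∀ f ∈ A, ∀ g ∈ A, ¬ Oe u i f g) :
    ∃ (p : V → ℝ × ℝ) (γ : ℝ), T.Sign p f0 ∧ ∀ f ∈ A, (p (u f i)).1 < γ ∧ γ < (p (u f (i + 1))).1 := by
  classical
  have hij : i ≠ i + 1 := (w9_ne i).symm
  obtain ⟨K, hK⟩ : ∃ K : ℝ, ∀ v, |x (i + 1) v - x i v| < K := by
    refine ⟨∑ v, |x (i + 1) v - x i v| + 1, fun v => ?_⟩
    have h := Finset.single_le_sum (f := fun v => |x (i + 1) v - x i v|)
      (fun v _ => abs_nonneg _) (Finset.mem_univ v)
    exact lt_of_le_of_lt h (lt_add_one _)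
  have h3 : ∀ h : F, (∃ f ∈ A, Relation.ReflTransGen (step u i) (u f i) (u h (i + 1))) →
      ∃ f ∈ A, Relation.ReflTransGen (step u i) (u f i) (u h i) := by
    rintro h ⟨f, hf, h1⟩
    exact ⟨f, hf, h1.tail ⟨h, rfl, rfl⟩⟩
  have hX : ∀ h : F, (fun v => x (i + 1) v - x i v +
      (if ∃ f ∈ A, Relation.ReflTransGen (step u i) (u f i) v then 0 else 2 * K)) (u h i) <
      (fun v => x (i + 1) v - x i v +
      (if ∃ f ∈ A, Relation.ReflTransGen (step u i) (u f i) v then 0 else 2 * K)) (u h (i + 1)) := by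
    intro h
    have h1 := hR.lab h i (i + 1) hij.symm
    have h2 := hR.lab h (i + 1) i hij
    have hK0 : 0 < K := lt_of_le_of_lt (abs_nonneg _) (hK (u h i))
    beta_reduce
    by_cases hb : ∃ f ∈ A, Relation.ReflTransGen (step u i) (u f i) (u h (i + 1))
    · rw [if_pos hb, if_pos (h3 h hb)]
      linarith
    · rw [if_neg hb]
      split_ifs <;> linarith
  obtain ⟨Y, hY⟩ := T.sign_of_realizer f0 x u hR i
    (fun v => x (i + 1) v - x i v +
      (if ∃ f ∈ A, Relation.ReflTransGen (step u i) (u f i) v then 0 else 2 * K)) hX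
  refine ⟨_, K, hY, fun f hf => ⟨?_, ?_⟩⟩
  · rw [if_pos ⟨f, hf, Relation.ReflTransGen.refl⟩, add_zero]
    exact (abs_lt.1 (hK (u f i))).2
  · rw [if_neg ?_]
    · have := (abs_lt.1 (hK (u f (i + 1)))).1
      linarith
    · rintro ⟨g, hg, h1⟩
      exact hA g hg f hf h1

end Tri

end LS35
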