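import Pool.Agent.LibLH35.W8
import Pool.Agent.LibLH35.W9
import Pool.Agent.LibLS35.D9
import Pool.Agent.LibLS35.G10
import Pool.Agent.LibLS35.G11
import Pool.Agent.LibLS35.G12

/-! Assembly: every (a,b,c)-triangulation has `b ≤ (c-1)^2 + 1`. -/

namespace LS35

variable {V F : Type} [Fintype V] [Fintype F]

omit [Fintype V] [Fintype F] in
theorem oe_excl (f0 : F) (u : F → Fin 3 → V)
    (hp : ∀ f, f ≠ f0 → ∃ A B : V → Prop, (∀ v, A v → B v → False) ∧ A (u f 2) ∧ B (u f 1) ∧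
      (∀ h, A (u h 0) → A (u h 2)) ∧ (∀ h, B (u h 0) → B (u h 1))) (f g : F) (hf : f ≠ f0) :
    ¬ (Oe u 2 f g ∧ Oe u 0 g f) := by
  rintro ⟨h1, h2⟩
  obtain ⟨A, B, hd, hA, hB, cA, cB⟩ := hp f hf
  have e1 : (2 : Fin 3) + 1 = 0 := rfl
  have e2 : (0 : Fin 3) + 1 = 1 := rfl
  have a1 : ∀ a b : V, Relation.ReflTransGen (step u 2) a b → A a → A b := by
    intro a b hab ha
    induction hab with
    | refl => exact ha
    | tail _ h ih =>
      obtain ⟨k, rfl, rfl⟩ := h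
      exact cA k ih
  have a2 : ∀ a b : V, Relation.ReflTransGen (step u 0) a b → B b → B a := by
    intro a b hab
    induction hab with
    | refl => exact id
    | tail _ h ih =>
      obtain ⟨k, rfl, rfl⟩ := h
      exact fun hb => ih (cB k hb)
  unfold Oe at h1 h2
  rw [e1] at h1
  rw [e2] at h2
  exact hd (u g 0) (a1 _ _ h1 hA) (a2 _ _ h2 hB)

open Classical in
theorem antichain_le2 (T : Tri V F) (M : Finset F) (a b c : ℕ) (h : IsABC T M a b c) (f0 : F) (hf0 : f0 ∈ M)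
    (x : Fin 3 → V → ℝ) (u : F → Fin 3 → V) (hR : T.Realizer f0 x u) (i : Fin 3) (A : Finset F) (hAM : A ⊆ M.erase f0)
    (hA : ∀ f ∈ A, ∀ g ∈ A, ¬ Oe u i f g) : A.card + 1 ≤ c := by
  obtain ⟨p, γ, hS, hAp⟩ := T.stab2 f0 x u hR i A hA
  have hd := T.drawing_of_sign p f0 hS
  have hst := h.stab p hd 1 0 γ (Or.inl one_ne_zero)
  have hsub : insert f0 A ⊆ M.filter fun f => (T.region p f ∩ line 1 0 γ).Nonempty := by
    intro f hf
    rw [Finset.mem_insert] at hf
    rw [Finset.mem_filter]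
    rcases hf with rfl | hf
    · refine ⟨hf0, ?_⟩
      rw [T.region_out p f hS]
      exact line_out (fun i => p (T.vt f i)) 1 0 γ (Or.inl one_ne_zero)
    · have hfM := Finset.mem_erase.1 (hAM hf)
      refine ⟨hfM.2, ?_⟩
      rw [T.region_in p f0 hS f hfM.1]
      obtain ⟨r, hr⟩ := hR.rot f hfM.1
      obtain ⟨h1, h2⟩ := hAp f hf
      rw [hr] at h1 h2
      obtain ⟨y, hy1, hy2⟩ := line_in T p f (hS.1 f hfM.1) _ _ γ h1 h2
      refine ⟨y, hy2, ?_⟩
      simp only [line, Set.mem_setOf_eq]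
      rw [hy1]; ring
  have hf0A : f0 ∉ A := fun hc => (Finset.mem_erase.1 (hAM hc)).1 rfl
  have := Finset.card_le_card hsub
  rw [Finset.card_insert_of_notMem hf0A] at this
  omega

/-- every `(a,b,c)`-triangulation satisfies `b ≤ (c-1)^2 + 1` -/
theorem lower_bound2 (T : Tri V F) (M : Finset F) (a b c : ℕ) (h : IsABC T M a b c) : b ≤ (c - 1) ^ 2 + 1 := by
  classical
  have hM : M.Nonempty := by
    rw [← Finset.card_pos, h.cb]
    have := h.clt
    omega
  obtain ⟨f0, hf0⟩ := hM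
  obtain ⟨x, u, hR, hp⟩ := T.realizer2 f0
  have hw : ∀ i : Fin 3, ∀ A, A ⊆ M.erase f0 → (∀ f ∈ A, ∀ g ∈ A, ¬ Oe u i f g) → A.card ≤ c - 1 := by
    intro i A hAM hA
    have := antichain_le2 T M a b c h f0 hf0 x u hR i A hAM hA
    omega
  have key := two_orders (Oe u 2) (Oe u 0) (fun f hf => od_irrefl x u hR.lab 2 f (oe_od x u hR.lab 2 f f hf))
    (fun a b c => oe_trans u 2 a b c) (fun f hf => od_irrefl x u hR.lab 0 f (oe_od x u hR.lab 0 f f hf))
    (M.erase f0) (c - 1) (by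
      intro f hf g hg hr hq
      rcases hr with hr | hr
      · exact od_excl x u hR.lab 2 f g ⟨oe_od x u hR.lab 2 f g hr, oe_od x u hR.lab 0 f g hq⟩
      · exact oe_excl f0 u hp g f (Finset.mem_erase.1 hg).1 ⟨hr, hq⟩) (hw 2) (hw 0)
  rw [Finset.card_erase_of_mem hf0, h.cb] at key
  omega

end LS35
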