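import Pool.Agent.LibLH35.ADefs

/-! Row W3. Gluing closed pairs in case A. Notation: `s = tail b`, `t = head b`, `u = tail e`, `w = head e`; primes: `A', B'` live on `S \ Q`, `A'', B''` on `Q`.
For `h ∈ Q` a label of `x` is a label of `y'` (`lb_back` with `hy'`, `lQ`), for `h ∈ S \ Q` a label of `x` is one of `y` (`lb_back` with `hy`, `lS`). By `top_ne` for `hy'` the top corner of a face
of `Q` is neither `u` nor `w`, so it is no vertex of `S \ Q` (`hcom`), so it is not in `A', B'` (`suA`, `suB`).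
`glue`. disj: `A'' v`, `B' v`: `v` is `u` (no: `sA` of the `Q` pair) or `w` (`A' w` and `B' w`, no); `A' v`, `B'' v`: the same. sA: `A'' s`: `s = u` no, `s = w` then `A' s`, no. tB the same.
clA: `h ∈ Q`: `A''` ok, `A'` impossible (top corner). `h ∉ Q`: `A'` ok; `A''` of the top corner: it is `u` (no) or `w`, then `A'` holds there. clB the same.
`keepA`: only `A', B'`: faces of `Q` are vacuous. `fillA`: `A' u`, `A' w`: replace `A'` by `A' ∨ InV Q`. `fillB`: `B' u`, `B' w`: replace `B'` by `B' ∨ InV Q`. -/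

namespace LS35.Tri

variable {V F : Type} [Fintype V] [Fintype F] (T : Tri V F)

private theorem w3_mono {S S' : Finset F} (hs : ∀ f ∈ S, f ∈ S') {v : V} (h : T.InV S v) : T.InV S' v := by
  obtain ⟨f, hf, h⟩ := h
  exact ⟨f, hs f hf, h⟩

open Classical in
private theorem w3_sub {S Q : Finset F} {b e : Dart F} {y y' x : Fin 3 → V → ℝ} (h : T.SA S Q b e y y' x) {v : V}
    (hv : T.InV Q v) : T.InV S v := T.w3_mono (fun _ hf => h.hQS hf) hv

open Classical in
private theorem w3_sub' {S Q : Finset F} {v : V} (hv : T.InV (S \ Q) v) : T.InV S v :=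
  T.w3_mono (fun _ hf => (Finset.mem_sdiff.1 hf).1) hv

open Classical in
/-- the ends of the base are vertices of the rest -/
private theorem w3_ends {S Q : Finset F} {b e : Dart F} {y y' x : Fin 3 → V → ℝ} (h : T.SA S Q b e y y' x) :
    T.InV (S \ Q) (T.tail b) ∧ T.InV (S \ Q) (T.head b) := by
  have hb : b.1 ∈ S \ Q := Finset.mem_sdiff.2 ⟨h.hb.1, h.hbQ⟩
  exact ⟨⟨b.1, hb, _, rfl⟩, ⟨b.1, hb, _, rfl⟩⟩

open Classical in
/-- the top corner of a face of `Q` is no vertex of the rest -/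
private theorem w3_top {S Q : Finset F} {b e : Dart F} {y y' x : Fin 3 → V → ℝ} (h : T.SA S Q b e y y' x)
    {f : F} (hf : f ∈ Q) {r : Fin 3} (hr : T.Lb x f r) : ¬ T.InV (S \ Q) (T.vt f r) := by
  intro hv
  have h1 : T.Lb y' f r := T.lb_back h.hy' h.lQ hf hr
  have h2 := T.top_ne h.hy' hf h1
  rcases h.hcom _ ⟨f, hf, _, rfl⟩ hv with h3 | h3
  · exact h2.1 h3
  · exact h2.2 h3

open Classical in
private theorem w3_lb {S Q : Finset F} {b e : Dart F} {y y' x : Fin 3 → V → ℝ} (h : T.SA S Q b e y y' x)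
    {f : F} (hf : f ∈ S) (hq : f ∉ Q) {r : Fin 3} (hr : T.Lb x f r) : f ∈ S \ Q ∧ T.Lb y f r :=
  have h1 : f ∈ S \ Q := Finset.mem_sdiff.2 ⟨hf, hq⟩
  ⟨h1, T.lb_back h.hy h.lS h1 hr⟩

open Classical in
theorem glue {S Q : Finset F} {b e : Dart F} {y y' x : Fin 3 → V → ℝ} (h : T.SA S Q b e y y' x) {A' B' A'' B'' : V → Prop}
    (h1 : T.CP (S \ Q) (T.tail b) (T.head b) y A' B') (h2 : T.CP Q (T.tail e) (T.head e) y' A'' B'')
    (hA : A' (T.head e)) (hB : B' (T.tail e)) :
    T.CP S (T.tail b) (T.head b) x (fun v => A'' v ∨ A' v) (fun v => B'' v ∨ B' v) := by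
  have eA : ∀ v, A'' v → T.InV (S \ Q) v → A' v := by
    intro v hv hv'
    rcases h.hcom v (h2.suA v hv) hv' with h3 | h3
    · subst h3
      exact absurd hv h2.sA
    · subst h3
      exact hA
  have eB : ∀ v, B'' v → T.InV (S \ Q) v → B' v := by
    intro v hv hv'
    rcases h.hcom v (h2.suB v hv) hv' with h3 | h3
    · subst h3
      exact hB
    · subst h3
      exact absurd hv h2.tB
  obtain ⟨he1, he2⟩ := T.w3_ends h
  refine ⟨?_, ?_, ?_, ?_, ?_, ?_, ?_⟩
  · rintro v (ha | ha) (hb | hb)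
    · exact h2.disj v ha hb
    · exact h1.disj v (eA v ha (h1.suB v hb)) hb
    · exact h1.disj v ha (eB v hb (h1.suA v ha))
    · exact h1.disj v ha hb
  · rintro (ha | ha)
    · exact h1.sA (eA _ ha he1)
    · exact h1.sA ha
  · rintro (hb | hb)
    · exact h1.tB (eB _ hb he2)
    · exact h1.tB hb
  · rintro v (ha | ha)
    · exact T.w3_sub h (h2.suA v ha)
    · exact T.w3_sub' (h1.suA v ha)
  · rintro v (hb | hb)
    · exact T.w3_sub h (h2.suB v hb)
    · exact T.w3_sub' (h1.suB v hb)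
  · intro f hf r hr ha
    by_cases hq : f ∈ Q
    · rcases ha with ha | ha
      · exact Or.inl (h2.clA f hq r (T.lb_back h.hy' h.lQ hq hr) ha)
      · exact absurd (h1.suA _ ha) (T.w3_top h hq hr)
    · obtain ⟨hf', hr'⟩ := T.w3_lb h hf hq hr
      refine Or.inr (h1.clA f hf' r hr' ?_)
      rcases ha with ha | ha
      · exact eA _ ha ⟨f, hf', _, rfl⟩
      · exact ha
  · intro f hf r hr hb
    by_cases hq : f ∈ Q
    · rcases hb with hb | hb
      · exact Or.inl (h2.clB f hq r (T.lb_back h.hy' h.lQ hq hr) hb)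
      · exact absurd (h1.suB _ hb) (T.w3_top h hq hr)
    · obtain ⟨hf', hr'⟩ := T.w3_lb h hf hq hr
      refine Or.inr (h1.clB f hf' r hr' ?_)
      rcases hb with hb | hb
      · exact eB _ hb ⟨f, hf', _, rfl⟩
      · exact hb

open Classical in
theorem keepA {S Q : Finset F} {b e : Dart F} {y y' x : Fin 3 → V → ℝ} (h : T.SA S Q b e y y' x) {A' B' : V → Prop}
    (h1 : T.CP (S \ Q) (T.tail b) (T.head b) y A' B') : T.CP S (T.tail b) (T.head b) x A' B' := by
  refine ⟨h1.disj, h1.sA, h1.tB, fun v hv => T.w3_sub' (h1.suA v hv), fun v hv => T.w3_sub' (h1.suB v hv), ?_, ?_⟩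
  · intro f hf r hr ha
    by_cases hq : f ∈ Q
    · exact absurd (h1.suA _ ha) (T.w3_top h hq hr)
    · obtain ⟨hf', hr'⟩ := T.w3_lb h hf hq hr
      exact h1.clA f hf' r hr' ha
  · intro f hf r hr hb
    by_cases hq : f ∈ Q
    · exact absurd (h1.suB _ hb) (T.w3_top h hq hr)
    · obtain ⟨hf', hr'⟩ := T.w3_lb h hf hq hr
      exact h1.clB f hf' r hr' hb

open Classical in
theorem fillA {S Q : Finset F} {b e : Dart F} {y y' x : Fin 3 → V → ℝ} (h : T.SA S Q b e y y' x) {A' B' : V → Prop}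
    (h1 : T.CP (S \ Q) (T.tail b) (T.head b) y A' B') (hu : A' (T.tail e)) (hw : A' (T.head e)) :
    T.CP S (T.tail b) (T.head b) x (fun v => T.InV Q v ∨ A' v) B' := by
  have eA : ∀ v, T.InV Q v → T.InV (S \ Q) v → A' v := by
    intro v hv hv'
    rcases h.hcom v hv hv' with h3 | h3
    · subst h3
      exact hu
    · subst h3
      exact hw
  obtain ⟨he1, he2⟩ := T.w3_ends h
  refine ⟨?_, ?_, h1.tB, ?_, fun v hv => T.w3_sub' (h1.suB v hv), ?_, ?_⟩
  · rintro v (ha | ha) hb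
    · exact h1.disj v (eA v ha (h1.suB v hb)) hb
    · exact h1.disj v ha hb
  · rintro (ha | ha)
    · exact h1.sA (eA _ ha he1)
    · exact h1.sA ha
  · rintro v (ha | ha)
    · exact T.w3_sub h ha
    · exact T.w3_sub' (h1.suA v ha)
  · intro f hf r hr ha
    by_cases hq : f ∈ Q
    · exact Or.inl ⟨f, hq, _, rfl⟩
    · obtain ⟨hf', hr'⟩ := T.w3_lb h hf hq hr
      refine Or.inr (h1.clA f hf' r hr' ?_)
      rcases ha with ha | ha
      · exact eA _ ha ⟨f, hf', _, rfl⟩
      · exact ha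
  · intro f hf r hr hb
    by_cases hq : f ∈ Q
    · exact absurd (h1.suB _ hb) (T.w3_top h hq hr)
    · obtain ⟨hf', hr'⟩ := T.w3_lb h hf hq hr
      exact h1.clB f hf' r hr' hb

open Classical in
theorem fillB {S Q : Finset F} {b e : Dart F} {y y' x : Fin 3 → V → ℝ} (h : T.SA S Q b e y y' x) {A' B' : V → Prop}
    (h1 : T.CP (S \ Q) (T.tail b) (T.head b) y A' B') (hu : B' (T.tail e)) (hw : B' (T.head e)) :
    T.CP S (T.tail b) (T.head b) x A' (fun v => T.InV Q v ∨ B' v) := by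
  have eB : ∀ v, T.InV Q v → T.InV (S \ Q) v → B' v := by
    intro v hv hv'
    rcases h.hcom v hv hv' with h3 | h3
    · subst h3
      exact hu
    · subst h3
      exact hw
  obtain ⟨he1, he2⟩ := T.w3_ends h
  refine ⟨?_, h1.sA, ?_, fun v hv => T.w3_sub' (h1.suA v hv), ?_, ?_, ?_⟩
  · rintro v ha (hb | hb)
    · exact h1.disj v ha (eB v hb (h1.suA v ha))
    · exact h1.disj v ha hb
  · rintro (hb | hb)
    · exact h1.tB (eB _ hb he2)
    · exact h1.tB hb
  · rintro v (hb | hb)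
    · exact T.w3_sub h hb
    · exact T.w3_sub' (h1.suB v hb)
  · intro f hf r hr ha
    by_cases hq : f ∈ Q
    · exact absurd (h1.suA _ ha) (T.w3_top h hq hr)
    · obtain ⟨hf', hr'⟩ := T.w3_lb h hf hq hr
      exact h1.clA f hf' r hr' ha
  · intro f hf r hr hb
    by_cases hq : f ∈ Q
    · exact Or.inl ⟨f, hq, _, rfl⟩
    · obtain ⟨hf', hr'⟩ := T.w3_lb h hf hq hr
      refine Or.inr (h1.clB f hf' r hr' ?_)
      rcases hb with hb | hb
      · exact eB _ hb ⟨f, hf', _, rfl⟩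
      · exact hb

end LS35.Tri
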