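import Pool.Agent.LibLH35.W3

/-! Row W4. Case A. `caseA_FP`: `f ∈ Q`, label `r` (of `y'` by `lb_back`): the pair of `f` in `Q` and the edge pair of `op e` in `S \ Q` (`op e` is a boundary dart of `S \ Q`, `op e ≠ b` because
`op (op e) = e` is in `S`), `glue`. `f ∉ Q`: `keepA`. `caseA_EP`: boundary dart `d₁ ≠ b` of `S`. If `d₁.1 ∈ Q`: it is a boundary dart of `Q`, `≠ e` (because `(op e).1 ∈ S`); take its edge pair in `Q` and the edge pair of `op e` in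
`S \ Q`, `glue`; for the other darts `d`: `d.1 ∈ Q`: from the first, `d.1 ∉ Q`: from the second (`d ≠ op e` because `op d ∉ S`). If `d₁.1 ∉ Q`: edge pair of `d₁` in `S \ Q`; apply its last clause to `op e` (`≠ b`, `≠ d₁`): both
ends in `A'` (`fillA`) or both in `B'` (`fillB`); darts `d` with `d.1 ∈ Q` have both ends in `InV Q`. -/

namespace LS35.Tri

variable {V F : Type} [Fintype V] [Fintype F] (T : Tri V F)

open Classical in
/-- `op e` is a boundary dart of `S \ Q`. -/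
private theorem bd_ope {S Q : Finset F} {b e : Dart F} {y y' x : Fin 3 → V → ℝ} (h : T.SA S Q b e y y' x) :
    T.Bd (S \ Q) (T.op e) := by
  refine ⟨Finset.mem_sdiff.2 ⟨h.he1, h.he2⟩, ?_⟩
  rw [T.op_op]
  exact fun hc => (Finset.mem_sdiff.1 hc).2 h.he

open Classical in
/-- a boundary dart of `S` is not `op e` -/
private theorem ne_ope {S Q : Finset F} {b e : Dart F} {y y' x : Fin 3 → V → ℝ} (h : T.SA S Q b e y y' x)
    {d : Dart F} (hd : T.Bd S d) : d ≠ T.op e := by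
  intro hc
  have h1 := hd.2
  rw [hc, T.op_op] at h1
  exact h1 (h.hQS h.he)

open Classical in
/-- a boundary dart of `S` is not `e` -/
private theorem ne_e {S Q : Finset F} {b e : Dart F} {y y' x : Fin 3 → V → ℝ} (h : T.SA S Q b e y y' x)
    {d : Dart F} (hd : T.Bd S d) : d ≠ e := by
  intro hc
  have h1 := hd.2
  rw [hc] at h1
  exact h1 h.he1

open Classical in
private theorem bd_Q {S Q : Finset F} {b e : Dart F} {y y' x : Fin 3 → V → ℝ} (h : T.SA S Q b e y y' x)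
    {d : Dart F} (hd : T.Bd S d) (hdQ : d.1 ∈ Q) : T.Bd Q d :=
  ⟨hdQ, fun hc => hd.2 (h.hQS hc)⟩

open Classical in
private theorem bd_S {S Q : Finset F} {d : Dart F} (hd : T.Bd S d) (hdQ : d.1 ∉ Q) : T.Bd (S \ Q) d :=
  ⟨Finset.mem_sdiff.2 ⟨hd.1, hdQ⟩, fun hc => hd.2 (Finset.mem_sdiff.1 hc).1⟩

open Classical in
theorem caseA_FP {S Q : Finset F} {b e : Dart F} {y y' x : Fin 3 → V → ℝ} (h : T.SA S Q b e y y' x)
    (h1 : T.FP Q (T.tail e) (T.head e) y') (h2 : T.FP (S \ Q) (T.tail b) (T.head b) y) (h3 : T.EP (S \ Q) b y) :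
    T.FP S (T.tail b) (T.head b) x := by
  intro f hf r hr
  by_cases hfQ : f ∈ Q
  · obtain ⟨A2, B2, hcp2, hA2, hB2⟩ := h1 f hfQ r (T.lb_back h.hy' h.lQ hfQ hr)
    obtain ⟨A1, B1, hcp1, hA1, hB1, -⟩ := h3 (T.op e) (T.bd_ope h) (T.ne_ope h h.hb).symm
    rw [T.tail_op] at hA1
    rw [T.head_op] at hB1
    exact ⟨_, _, T.glue h hcp1 hcp2 hA1 hB1, Or.inl hA2, Or.inl hB2⟩
  · have hfS : f ∈ S \ Q := Finset.mem_sdiff.2 ⟨hf, hfQ⟩
    obtain ⟨A1, B1, hcp1, hA1, hB1⟩ := h2 f hfS r (T.lb_back h.hy h.lS hfS hr)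
    exact ⟨A1, B1, T.keepA h hcp1, hA1, hB1⟩

open Classical in
theorem caseA_EP {S Q : Finset F} {b e : Dart F} {y y' x : Fin 3 → V → ℝ} (h : T.SA S Q b e y y' x)
    (h1 : T.EP Q e y') (h3 : T.EP (S \ Q) b y) : T.EP S b x := by
  intro d₁ hd₁ hne
  by_cases hQ : d₁.1 ∈ Q
  · obtain ⟨A2, B2, hcp2, hA2, hB2, hr2⟩ := h1 d₁ (T.bd_Q h hd₁ hQ) (T.ne_e h hd₁)
    obtain ⟨A1, B1, hcp1, hA1, hB1, hr1⟩ := h3 (T.op e) (T.bd_ope h) (T.ne_ope h h.hb).symm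
    rw [T.tail_op] at hA1
    rw [T.head_op] at hB1
    refine ⟨_, _, T.glue h hcp1 hcp2 hA1 hB1, Or.inl hA2, Or.inl hB2, ?_⟩
    intro d hd hdb hdd
    by_cases hdQ : d.1 ∈ Q
    · rcases hr2 d (T.bd_Q h hd hdQ) (T.ne_e h hd) hdd with hc | hc
      · exact Or.inl ⟨Or.inl hc.1, Or.inl hc.2⟩
      · exact Or.inr ⟨Or.inl hc.1, Or.inl hc.2⟩
    · rcases hr1 d (T.bd_S hd hdQ) hdb (T.ne_ope h hd) with hc | hc
      · exact Or.inl ⟨Or.inr hc.1, Or.inr hc.2⟩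
      · exact Or.inr ⟨Or.inr hc.1, Or.inr hc.2⟩
  · obtain ⟨A1, B1, hcp1, hA1, hB1, hr1⟩ := h3 d₁ (T.bd_S hd₁ hQ) hne
    have hend : ∀ d : Dart F, d.1 ∈ Q → T.InV Q (T.tail d) ∧ T.InV Q (T.head d) :=
      fun d hd => ⟨⟨d.1, hd, d.2, rfl⟩, ⟨d.1, hd, d.2 + 1, rfl⟩⟩
    rcases hr1 (T.op e) (T.bd_ope h) (T.ne_ope h h.hb).symm (T.ne_ope h hd₁).symm with hc | hc
    · rw [T.tail_op, T.head_op] at hc
      refine ⟨_, _, T.fillA h hcp1 hc.2 hc.1, Or.inr hA1, hB1, ?_⟩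
      intro d hd hdb hdd
      by_cases hdQ : d.1 ∈ Q
      · exact Or.inl ⟨Or.inl (hend d hdQ).1, Or.inl (hend d hdQ).2⟩
      · rcases hr1 d (T.bd_S hd hdQ) hdb hdd with h5 | h5
        · exact Or.inl ⟨Or.inr h5.1, Or.inr h5.2⟩
        · exact Or.inr h5
    · rw [T.tail_op, T.head_op] at hc
      refine ⟨_, _, T.fillB h hcp1 hc.2 hc.1, hA1, Or.inr hB1, ?_⟩
      intro d hd hdb hdd
      by_cases hdQ : d.1 ∈ Q
      · exact Or.inr ⟨Or.inl (hend d hdQ).1, Or.inl (hend d hdQ).2⟩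
      · rcases hr1 d (T.bd_S hd hdQ) hdb hdd with h5 | h5
        · exact Or.inl h5
        · exact Or.inr ⟨Or.inr h5.1, Or.inr h5.2⟩

end LS35.Tri
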