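import Pool.Agent.LibLH35.ADefs
import Pool.Agent.LibLS35.E2

/-! Row W5. Case B, tools. `v = tail dv`. `keepB`: a pair of `far` is a pair of `S`: for `f` near, label `r` of `x` implies `vt f r = v` (`ln`, `lb_unique`), and `v` is not `InV far`; for `f` far use `lb_back`.
`addB`: the same with `v` added to `B`. `chain0`: `B` holds at all `vt f (r+1)`, `f` near, `vt f r = v`: take a counterexample with `y 2 (vt f (r+1))` minimal; `w = vt f (r+1)` is not `s = tail b`; E1 `bwd_face` gives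
`g` near with `vt g (r'+2) = w`; `y 2 (vt g (r'+1)) < y 2 w` (copy the private lemma `E7_key`), so `B (vt g (r'+1))`; `w ≠ tail dz` by `fwd_ne`; so `B w` by the hypothesis `hstep`. -/

namespace LS35.Tri

variable {V F : Type} [Fintype V] [Fintype F] (T : Tri V F)

private theorem w5b_f1 (r : Fin 3) : r + 1 + 1 = r + 2 := by revert r; decide

private theorem w5b_far {S : Finset F} {v : V} {f : F} : f ∈ T.far S v ↔ f ∈ S ∧ ¬ T.At f v := by
  classical
  unfold far
  rw [Finset.mem_filter]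

private theorem w5b_near {S : Finset F} {v : V} {f : F} : f ∈ T.near S v ↔ f ∈ S ∧ T.At f v := by
  classical
  unfold near
  rw [Finset.mem_filter]

private theorem w5b_inv {S : Finset F} {v w : V} (h : T.InV (T.far S v) w) : T.InV S w := by
  obtain ⟨f, hf, h1⟩ := h
  exact ⟨f, (T.w5b_far.1 hf).1, h1⟩

private theorem w5b_notin {S : Finset F} {v : V} (h : T.InV (T.far S v) v) : False := by
  obtain ⟨f, hf, h1⟩ := h
  exact (T.w5b_far.1 hf).2 h1

/-- the label of a near face is the corner `v` -/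
private theorem w5b_lab {S : Finset F} {b dv dz : Dart F} {y x : Fin 3 → V → ℝ} (h : T.SB S b dv dz y x) {f : F}
    (hf : f ∈ T.near S (T.tail dv)) {r : Fin 3} (hr : T.Lb x f r) : T.vt f r = T.tail dv := by
  obtain ⟨r0, hr0⟩ := (T.w5b_near.1 hf).2
  have h1 := h.ln f hf r0 hr0
  rw [T.lb_unique hr h1]
  exact hr0

private theorem w5b_cases {S : Finset F} (v : V) {f : F} (hf : f ∈ S) : f ∈ T.near S v ∨ f ∈ T.far S v := by
  by_cases h : T.At f v
  · exact Or.inl (T.w5b_near.2 ⟨hf, h⟩)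
  · exact Or.inr (T.w5b_far.2 ⟨hf, h⟩)

private theorem w5b_key {S : Finset F} {b dv dz : Dart F} (h : T.NC S b dv dz) (y : Fin 3 → V → ℝ)
    (hy : T.Rz (T.far S (T.tail dv)) (T.tail b) (T.head b) y) (f : F)
    (hf : f ∈ T.near S (T.tail dv)) (r : Fin 3) (hr : T.vt f r = T.tail dv) :
    y 2 (T.vt f (r + 1)) < y 2 (T.vt f (r + 2)) := by
  have hhead : T.head (f, r + 1) = T.vt f (r + 2) := by
    change T.vt f (r + 1 + 1) = _
    rw [w5b_f1]
  have htail : T.tail (f, r + 1) = T.vt f (r + 1) := rfl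
  rcases T.opposite h f hf r hr with h1 | ⟨_, h2⟩
  · have hbd : T.Bd (T.far S (T.tail dv)) (T.op (f, r + 1)) := by
      refine ⟨h1, ?_⟩
      rw [T.op_op]
      intro h3
      exact (T.w5b_far.1 h3).2 ⟨r, hr⟩
    have h4 := hy.bdr _ hbd (by
      rintro ⟨h5, _⟩
      rw [T.tail_op, hhead] at h5
      exact T.bwd_ne h f hf r hr h5)
    rw [T.tail_op, T.head_op, hhead, htail] at h4
    exact h4.2
  · have h3 : T.vt f (r + 1) = T.tail b := by rw [← htail, h2]
    have h4 : T.vt f (r + 2) = T.head b := by rw [← hhead, h2]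
    rw [h3, h4, hy.x2s, hy.x2t]
    exact one_pos

theorem keepB {S : Finset F} {b dv dz : Dart F} {y x : Fin 3 → V → ℝ} (h : T.SB S b dv dz y x) {A B : V → Prop}
    (h1 : T.CP (T.far S (T.tail dv)) (T.tail b) (T.head b) y A B) : T.CP S (T.tail b) (T.head b) x A B where
  disj := h1.disj
  sA := h1.sA
  tB := h1.tB
  suA := fun v hv => T.w5b_inv (h1.suA v hv)
  suB := fun v hv => T.w5b_inv (h1.suB v hv)
  clA := by
    intro f hf r hr ha
    rcases T.w5b_cases (T.tail dv) hf with hn | hn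
    · rw [T.w5b_lab h hn hr] at ha
      exact (T.w5b_notin (h1.suA _ ha)).elim
    · exact h1.clA f hn r (T.lb_back h.hy h.lf hn hr) ha
  clB := by
    intro f hf r hr ha
    rcases T.w5b_cases (T.tail dv) hf with hn | hn
    · rw [T.w5b_lab h hn hr] at ha
      exact (T.w5b_notin (h1.suB _ ha)).elim
    · exact h1.clB f hn r (T.lb_back h.hy h.lf hn hr) ha

theorem addB {S : Finset F} {b dv dz : Dart F} {y x : Fin 3 → V → ℝ} (h : T.SB S b dv dz y x) {A B : V → Prop}
    (h1 : T.CP (T.far S (T.tail dv)) (T.tail b) (T.head b) y A B)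
    (h2 : ∀ f ∈ T.near S (T.tail dv), ∀ r, T.vt f r = T.tail dv → B (T.vt f (r + 1))) :
    T.CP S (T.tail b) (T.head b) x A (fun w => B w ∨ w = T.tail dv) where
  disj := by
    rintro v ha (hb | rfl)
    · exact h1.disj v ha hb
    · exact T.w5b_notin (h1.suA _ ha)
  sA := h1.sA
  tB := by
    rintro (hb | hb)
    · exact h1.tB hb
    · exact (T.nc_ne h.h).2.1 hb.symm
  suA := fun v hv => T.w5b_inv (h1.suA v hv)
  suB := by
    rintro v (hb | rfl)
    · exact T.w5b_inv (h1.suB v hb)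
    · exact ⟨dv.1, h.h.hv.1, dv.2, rfl⟩
  clA := (T.keepB h h1).clA
  clB := by
    intro f hf r hr ha
    left
    rcases T.w5b_cases (T.tail dv) hf with hn | hn
    · exact h2 f hn r (T.w5b_lab h hn hr)
    · rcases ha with ha | ha
      · exact h1.clB f hn r (T.lb_back h.hy h.lf hn hr) ha
      · exact ((T.w5b_far.1 hn).2 ⟨r, ha⟩).elim

theorem chain0 {S : Finset F} {b dv dz : Dart F} {y x : Fin 3 → V → ℝ} (h : T.SB S b dv dz y x) {B : V → Prop}
    (hs : B (T.tail b))
    (hstep : ∀ f ∈ T.near S (T.tail dv), ∀ r, T.vt f r = T.tail dv → B (T.vt f (r + 1)) → T.vt f (r + 2) ≠ T.tail dz →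
      B (T.vt f (r + 2))) :
    ∀ f ∈ T.near S (T.tail dv), ∀ r, T.vt f r = T.tail dv → B (T.vt f (r + 1)) := by
  classical
  by_contra hcon
  push Not at hcon
  obtain ⟨f0, hf0, r0, hr0, hB0⟩ := hcon
  obtain ⟨p, hp, hmin⟩ := Finset.exists_min_image
    ((Finset.univ : Finset (F × Fin 3)).filter fun p =>
      p.1 ∈ T.near S (T.tail dv) ∧ T.vt p.1 p.2 = T.tail dv ∧ ¬ B (T.vt p.1 (p.2 + 1)))
    (fun p => y 2 (T.vt p.1 (p.2 + 1)))
    ⟨(f0, r0), Finset.mem_filter.2 ⟨Finset.mem_univ _, hf0, hr0, hB0⟩⟩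
  obtain ⟨_, hf, hr, hB⟩ := Finset.mem_filter.1 hp
  have hws : T.vt p.1 (p.2 + 1) ≠ T.tail b := by
    intro hc
    rw [hc] at hB
    exact hB hs
  obtain ⟨g, hg, r', hr', hg1⟩ := T.bwd_face h.h p.1 hf p.2 hr hws
  have hlt := T.w5b_key h.h y h.hy g hg r' hr'
  rw [hg1] at hlt
  have hBg : B (T.vt g (r' + 1)) := by
    by_contra hc
    have h3 := hmin (g, r') (Finset.mem_filter.2 ⟨Finset.mem_univ _, hg, hr', hc⟩)
    exact absurd hlt (not_lt.2 h3)
  have h4 := hstep g hg r' hr' hBg (by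
    rw [hg1]
    exact T.fwd_ne h.h p.1 hf p.2 hr)
  rw [hg1] at h4
  exact hB h4

end LS35.Tri
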