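import Pool.Agent.LibLH35.W5

/-! Row W6. Case B. Notation `v = tail dv`, `s = tail b = head dv`, `t = head b`, `z = tail dz`, `v = head dz`. For `f` near with `vt f r = v` put `m f = op (f, r+1)`: it goes from `vt f (r+2)` to `vt f (r+1)`. By E2 `opposite`
either `(m f).1 ∈ far` (then `Bd far (m f)`: `op (m f) = (f, r+1)` is at `v`; and `m f ≠ b` since `(op (m f)).1 ∈ S`), or `(f, r+1) = b`.
`caseB_FP`: `f` far: `keepB`. `f` near, label `r` (so `vt f r = v` by `ln`, `lb_unique`): edge pair of `m f`, `keepB`; if `(f, r+1) = b`: `A = {t}`, `B = {s}` (vacuous by `top_ne`).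
`caseB_EP`: the boundary darts of `S` other than `b` at `v` are only `dv` and `dz` (as in E7 `extend`, bullet bdr: `d = (f, r)`, `(f, r+1)`, `(f, r+2)`), the others are far.
(i) `dv`: `A = {w | InV S w ∧ w ≠ s}`, `B = {s}` (`top_ne`, `two_ne`; other boundary darts do not touch `s` by `simple`, `in_unique`).
(ii) `d₁` far: edge pair of `d₁` in `far`; every `m f` is `≠ b, d₁`, so both ends in `A` or both in `B`; `B s`: by `m f₀`, `f₀ = dv.1` (its head is `s`, `sA`); `chain0`, `addB`; so all neighbours are in `B`. (If `(f, r+1) = b` for some near `f` then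
`b.1` is near, `Bd far b` fails, so by `far_cases` `far = ∅`: impossible here.)
(iii) `dz` (`≠ dv`): `f₁ = dz.1`, `dz = (f₁, r+2)`. If `far = ∅` (`far_cases`: `S = {b.1}`, `z = t`): `A = {t}`, `B = {s, v}`. Else edge pair of `m f₁` (from `z` to `vt f₁ (r+1)`): `A z`, `B (vt f₁ (r+1))`, all other `m f` both ends
in `A` or both in `B`; `B s` as before (or `m f₀ = m f₁`); `chain0` (the step at `f` with `vt f (r+2) ≠ z`: `m f ≠ m f₁`), `addB`. -/

namespace LS35.Tri

variable {V F : Type} [Fintype V] [Fintype F] (T : Tri V F)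

private theorem W6F_add (r : Fin 3) : r + 1 + 1 = r + 2 := by revert r; decide

private theorem W6F_mem_far {S : Finset F} {v : V} {f : F} : f ∈ T.far S v ↔ f ∈ S ∧ ¬ T.At f v := by
  classical
  unfold far
  rw [Finset.mem_filter]

private theorem W6F_mem_near {S : Finset F} {v : V} {f : F} : f ∈ T.near S v ↔ f ∈ S ∧ T.At f v := by
  classical
  unfold near
  rw [Finset.mem_filter]

theorem caseB_FP {S : Finset F} {b dv dz : Dart F} {y x : Fin 3 → V → ℝ} (h : T.SB S b dv dz y x)
    (h1 : T.FP (T.far S (T.tail dv)) (T.tail b) (T.head b) y) (h2 : T.EP (T.far S (T.tail dv)) b y) :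
    T.FP S (T.tail b) (T.head b) x := by
  intro f hf r hr
  by_cases hat : T.At f (T.tail dv)
  · obtain ⟨r0, hr0⟩ := hat
    have hn : f ∈ T.near S (T.tail dv) := T.W6F_mem_near.2 ⟨hf, r0, hr0⟩
    have e0 := T.lb_unique hr (h.ln f hn r0 hr0)
    subst e0
    rcases T.opposite h.h f hn r hr0 with ho | ⟨_, hb⟩
    · have hbd : T.Bd (T.far S (T.tail dv)) (T.op (f, r + 1)) := by
        refine ⟨ho, ?_⟩
        rw [T.op_op]
        intro h3
        exact (T.W6F_mem_far.1 h3).2 ⟨r, hr0⟩
      have hne : T.op (f, r + 1) ≠ b := by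
        intro hc
        have h3 := h.h.hb.2
        rw [← hc, T.op_op] at h3
        exact h3 hf
      obtain ⟨A, B, hcp, hA, hB, -⟩ := h2 _ hbd hne
      refine ⟨A, B, T.keepB h hcp, ?_, ?_⟩
      · rw [T.tail_op] at hA
        have h4 : T.head (f, r + 1) = T.vt f (r + 2) := by
          change T.vt f (r + 1 + 1) = _
          rw [W6F_add]
        rw [h4] at hA
        exact hA
      · rw [T.head_op] at hB
        exact hB
    · have ht : T.vt f (r + 2) = T.head b := by
        rw [← hb]
        change _ = T.vt f (r + 1 + 1)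
        rw [W6F_add]
      have hs : T.vt f (r + 1) = T.tail b := by
        rw [← hb]
        rfl
      refine ⟨fun v => v = T.head b, fun v => v = T.tail b, ?_, ht, hs⟩
      refine ⟨?_, ?_, ?_, ?_, ?_, ?_, ?_⟩
      · intro v e1 e2
        exact T.tail_ne_head b (e2.symm.trans e1)
      · exact T.tail_ne_head b
      · exact fun e => T.tail_ne_head b e.symm
      · rintro v rfl
        exact ⟨b.1, h.h.hb.1, b.2 + 1, rfl⟩
      · rintro v rfl
        exact ⟨b.1, h.h.hb.1, b.2, rfl⟩
      · intro g hg r' hr' e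
        exact absurd e (T.top_ne h.hx hg hr').2
      · intro g hg r' hr' e
        exact absurd e (T.top_ne h.hx hg hr').1
  · have hfar : f ∈ T.far S (T.tail dv) := T.W6F_mem_far.2 ⟨hf, hat⟩
    obtain ⟨A, B, hcp, hA, hB⟩ := h1 f hfar r (T.lb_back h.hy h.lf hfar hr)
    exact ⟨A, B, T.keepB h hcp, hA, hB⟩

private theorem W6E_add2 (r : Fin 3) : r + 2 + 1 = r := by revert r; decide
private theorem W6E_add3 (r : Fin 3) : r + 1 + 2 = r := by revert r; decide
private theorem W6E_cases (k r : Fin 3) : k = r ∨ k = r + 1 ∨ k = r + 2 := by revert k r; decide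

private theorem W6E_bdr {S : Finset F} {b dv dz : Dart F} (h : T.NC S b dv dz) (d : Dart F) (hd : T.Bd S d)
    (hdb : d ≠ b) : d = dv ∨ d = dz ∨ T.Bd (T.far S (T.tail dv)) d := by
  by_cases hfv : T.At d.1 (T.tail dv)
  · obtain ⟨r, hr⟩ := hfv
    have hfn : d.1 ∈ T.near S (T.tail dv) := T.W6F_mem_near.2 ⟨hd.1, r, hr⟩
    rcases W6E_cases d.2 r with hk | hk | hk
    · left
      have ht : T.tail d = T.tail dv := by
        change T.vt d.1 d.2 = _
        rw [hk]; exact hr
      exact h.hS.simple d dv hd h.hv ht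
    · exfalso
      have hdd : (d.1, r + 1) = d := by rw [← hk]
      rcases T.opposite h d.1 hfn r hr with h1 | ⟨_, h2⟩
      · rw [hdd] at h1
        exact hd.2 (T.W6F_mem_far.1 h1).1
      · rw [hdd] at h2
        exact hdb h2
    · right; left
      have ht : T.head d = T.tail dv := by
        change T.vt d.1 (d.2 + 1) = _
        rw [hk, W6E_add2]; exact hr
      exact T.in_unique S h.hS.simple d dz hd h.hz (ht.trans h.hzh.symm)
  · right; right
    exact ⟨T.W6F_mem_far.2 ⟨hd.1, hfv⟩, fun h' => hd.2 (T.W6F_mem_far.1 h').1⟩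

private theorem W6E_m {S : Finset F} {b dv dz : Dart F} (h : T.NC S b dv dz) (hfb : T.Bd (T.far S (T.tail dv)) b)
    {f : F} (hf : f ∈ T.near S (T.tail dv)) {r : Fin 3} (hr : T.vt f r = T.tail dv) :
    T.Bd (T.far S (T.tail dv)) (T.op (f, r + 1)) ∧ T.op (f, r + 1) ≠ b ∧
      T.tail (T.op (f, r + 1)) = T.vt f (r + 2) ∧ T.head (T.op (f, r + 1)) = T.vt f (r + 1) ∧
      ∀ d, T.Bd S d → T.op (f, r + 1) ≠ d := by
  have hfS := (T.W6F_mem_near.1 hf).1
  have hne : ∀ d, T.Bd S d → T.op (f, r + 1) ≠ d := by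
    intro d hd hc
    have h3 := hd.2
    rw [← hc, T.op_op] at h3
    exact h3 hfS
  rcases T.opposite h f hf r hr with ho | ⟨_, hb⟩
  · refine ⟨⟨ho, ?_⟩, hne b h.hb, ?_, ?_, hne⟩
    · rw [T.op_op]
      intro h3
      exact (T.W6F_mem_far.1 h3).2 ⟨r, hr⟩
    · rw [T.tail_op]
      change T.vt f (r + 1 + 1) = _
      rw [W6F_add]
    · rw [T.head_op]
      rfl
  · exfalso
    have h3 := (T.W6F_mem_far.1 hfb.1).2
    rw [← hb] at h3
    exact h3 ⟨r, hr⟩

theorem caseB_EP {S : Finset F} {b dv dz : Dart F} {y x : Fin 3 → V → ℝ} (h : T.SB S b dv dz y x)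
    (h2 : T.EP (T.far S (T.tail dv)) b y) : T.EP S b x := by
  obtain ⟨hvs, hvt, hzs, hzv⟩ := T.nc_ne h.h
  have hInt : ∀ d, T.Bd S d → T.InV S (T.tail d) ∧ T.InV S (T.head d) :=
    fun d hd => ⟨⟨d.1, hd.1, d.2, rfl⟩, ⟨d.1, hd.1, d.2 + 1, rfl⟩⟩
  have hf0 : dv.1 ∈ T.near S (T.tail dv) := T.W6F_mem_near.2 ⟨h.h.hv.1, dv.2, rfl⟩
  have hr0 : T.vt dv.1 dv.2 = T.tail dv := rfl
  have hs0 : T.vt dv.1 (dv.2 + 1) = T.tail b := h.h.hvh
  have hr1 : T.vt dz.1 (dz.2 + 1) = T.tail dv := h.h.hzh
  have hf1 : dz.1 ∈ T.near S (T.tail dv) := T.W6F_mem_near.2 ⟨h.h.hz.1, dz.2 + 1, hr1⟩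
  have hz1 : T.vt dz.1 (dz.2 + 1 + 2) = T.tail dz := by
    rw [W6E_add3]
    rfl
  intro e he heb
  by_cases hev : e = dv
  · subst hev
    refine ⟨fun w => T.InV S w ∧ w ≠ T.tail b, fun w => w = T.tail b, ?_, ⟨(hInt _ he).1, hvs⟩, h.h.hvh, ?_⟩
    · refine ⟨?_, ?_, ?_, ?_, ?_, ?_, ?_⟩
      · rintro w ⟨_, e1⟩ e2
        exact e1 e2
      · rintro ⟨_, e1⟩
        exact e1 rfl
      · exact fun e1 => T.tail_ne_head b e1.symm
      · exact fun w hw => hw.1
      · rintro w rfl
        exact (hInt _ h.h.hb).1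
      · intro g hg r hr _
        exact ⟨⟨g, hg, r + 2, rfl⟩, T.two_ne h.hx hg hr⟩
      · intro g hg r hr e1
        exact absurd e1 (T.top_ne h.hx hg hr).1
    · intro d hd hdb hdv
      left
      refine ⟨⟨(hInt d hd).1, fun e1 => hdb (h.h.hS.simple d b hd h.h.hb e1)⟩,
        ⟨(hInt d hd).2, fun e1 => hdv ?_⟩⟩
      exact T.in_unique S h.h.hS.simple d e hd he (e1.trans h.h.hvh.symm)
  · by_cases hez : e = dz
    · subst hez
      rcases T.far_cases h.h with ⟨hSb, hfe, hzt⟩ | hfb
      · have hdv1 : dv.1 = b.1 := by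
          have h3 := h.h.hv.1
          rw [hSb, Finset.mem_singleton] at h3
          exact h3
        refine ⟨fun w => w = T.head b, fun w => w = T.tail b ∨ w = T.tail dv, ?_, hzt, Or.inr h.h.hzh, ?_⟩
        · refine ⟨?_, ?_, ?_, ?_, ?_, ?_, ?_⟩
          · rintro w rfl (e2 | e2)
            · exact T.tail_ne_head b e2.symm
            · exact hvt e2.symm
          · exact T.tail_ne_head b
          · rintro (e2 | e2)
            · exact T.tail_ne_head b e2.symm
            · exact hvt e2.symm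
          · rintro w rfl
            exact (hInt _ h.h.hb).2
          · rintro w (rfl | rfl)
            · exact (hInt _ h.h.hb).1
            · exact (hInt _ h.h.hv).1
          · intro g hg r hr e1
            exact absurd e1 (T.top_ne h.hx hg hr).2
          · rintro g hg r hr (e1 | e1)
            · exact absurd e1 (T.top_ne h.hx hg hr).1
            · left
              have hg1 : g = dv.1 := by
                rw [hSb, Finset.mem_singleton] at hg
                rw [hg, hdv1]
              subst hg1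
              have hrr : r = dv.2 := T.inj dv.1 (e1.trans hr0.symm)
              rw [hrr]
              exact hs0
        · intro d hd hdb hdz
          right
          rcases T.W6E_bdr h.h d hd hdb with h3 | h3 | h3
          · rw [h3]
            exact ⟨Or.inr rfl, Or.inl h.h.hvh⟩
          · exact absurd h3 hdz
          · have h4 := h3.1
            rw [hfe] at h4
            exact absurd h4 (Finset.notMem_empty _)
      · obtain ⟨m1, m2, m3, m4, m5⟩ := T.W6E_m h.h hfb hf1 hr1
        obtain ⟨A, B, hcp, hA, hB, hrest⟩ := h2 _ m1 m2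
        rw [m3, hz1] at hA
        have hBs : B (T.tail b) := by
          obtain ⟨n1, n2, n3, n4, n5⟩ := T.W6E_m h.h hfb hf0 hr0
          rw [hs0] at n4
          by_cases hmm : T.op (dv.1, dv.2 + 1) = T.op (e.1, e.2 + 1 + 1)
          · rw [← hmm, n4] at hB
            exact hB
          · rcases hrest _ n1 n2 hmm with ⟨_, h3⟩ | ⟨_, h3⟩
            · rw [n4] at h3
              exact absurd h3 hcp.sA
            · rw [n4] at h3
              exact h3
        have hall := T.chain0 h hBs (by
          intro f hf r hr hBf hne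
          obtain ⟨n1, n2, n3, n4, n5⟩ := T.W6E_m h.h hfb hf hr
          have hmm : T.op (f, r + 1) ≠ T.op (e.1, e.2 + 1 + 1) := by
            intro hc
            apply hne
            rw [← n3, hc, m3, hz1]
          rcases hrest _ n1 n2 hmm with ⟨_, h3⟩ | ⟨h3, _⟩
          · rw [n4] at h3
            exact absurd hBf (fun h5 => hcp.disj _ h3 h5)
          · rw [n3] at h3
            exact h3)
        refine ⟨A, fun w => B w ∨ w = T.tail dv, T.addB h hcp hall, hA, Or.inr h.h.hzh, ?_⟩
        intro d hd hdb hdz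
        rcases T.W6E_bdr h.h d hd hdb with h3 | h3 | h3
        · right
          rw [h3]
          refine ⟨Or.inr rfl, Or.inl ?_⟩
          rw [h.h.hvh]
          exact hBs
        · exact absurd h3 hdz
        · rcases hrest d h3 hdb (fun hc => m5 d hd hc.symm) with ⟨h4, h5⟩ | ⟨h4, h5⟩
          · exact Or.inl ⟨h4, h5⟩
          · exact Or.inr ⟨Or.inl h4, Or.inl h5⟩
    · have hfar : T.Bd (T.far S (T.tail dv)) e := by
        rcases T.W6E_bdr h.h e he heb with h3 | h3 | h3
        · exact absurd h3 hev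
        · exact absurd h3 hez
        · exact h3
      have hfb : T.Bd (T.far S (T.tail dv)) b := by
        rcases T.far_cases h.h with ⟨_, hfe, _⟩ | hfb
        · have h4 := hfar.1
          rw [hfe] at h4
          exact absurd h4 (Finset.notMem_empty _)
        · exact hfb
      obtain ⟨A, B, hcp, hA, hB, hrest⟩ := h2 e hfar heb
      have hBs : B (T.tail b) := by
        obtain ⟨n1, n2, n3, n4, n5⟩ := T.W6E_m h.h hfb hf0 hr0
        rw [hs0] at n4
        rcases hrest _ n1 n2 (n5 e he) with ⟨_, h3⟩ | ⟨_, h3⟩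
        · rw [n4] at h3
          exact absurd h3 hcp.sA
        · rw [n4] at h3
          exact h3
      have hstep : ∀ f ∈ T.near S (T.tail dv), ∀ r, T.vt f r = T.tail dv → B (T.vt f (r + 1)) →
          B (T.vt f (r + 2)) := by
        intro f hf r hr hBf
        obtain ⟨n1, n2, n3, n4, n5⟩ := T.W6E_m h.h hfb hf hr
        rcases hrest _ n1 n2 (n5 e he) with ⟨_, h3⟩ | ⟨h3, _⟩
        · rw [n4] at h3
          exact absurd hBf (fun h5 => hcp.disj _ h3 h5)
        · rw [n3] at h3
          exact h3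
      have hall := T.chain0 h hBs (fun f hf r hr hBf _ => hstep f hf r hr hBf)
      refine ⟨A, fun w => B w ∨ w = T.tail dv, T.addB h hcp hall, hA, Or.inl hB, ?_⟩
      intro d hd hdb hde
      rcases T.W6E_bdr h.h d hd hdb with h3 | h3 | h3
      · right
        rw [h3]
        refine ⟨Or.inr rfl, Or.inl ?_⟩
        rw [h.h.hvh]
        exact hBs
      · right
        rw [h3]
        refine ⟨Or.inl ?_, Or.inr h.h.hzh⟩
        have h4 := hstep dz.1 hf1 (dz.2 + 1) hr1 (hall dz.1 hf1 (dz.2 + 1) hr1)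
        rw [hz1] at h4
        exact h4
      · rcases hrest d h3 hdb hde with ⟨h4, h5⟩ | ⟨h4, h5⟩
        · exact Or.inl ⟨h4, h5⟩
        · exact Or.inr ⟨Or.inl h4, Or.inl h5⟩

end LS35.Tri
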