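import Pool.Agent.LibLH35.W1
import Pool.Agent.LibLH35.W2
import Pool.Agent.LibLH35.W4
import Pool.Agent.LibLH35.W6

/-! Row W7. Assembly: `rz2` is D8 (`rz_aux`) with the additional conclusions (`combine2`, `caseA_FP`, `caseA_EP`, `extend2`, `caseB_FP`, `caseB_EP`; for `far = ∅` the hypotheses `FP`, `EP` are vacuous).
`realizer2`: as D9 (`realizer_exists`) with `rz2`: `A := A ∨ (· = vt f0 0)`, `B := B ∨ (· = vt f0 1)`; `u f0 0 = vt f0 2`, `u f0 1 = vt f0 1 = tail b`, `u f0 2 = vt f0 0 = head b` (`b = op (f0, 0)`); for `h ≠ f0`: `top_ne`. -/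

namespace LS35.Tri

variable {V F : Type} [Fintype V] [Fintype F] (T : Tri V F)

private theorem w7_empty (b : Dart F) : ∃ x, T.Rz ∅ (T.tail b) (T.head b) x ∧
    T.FP ∅ (T.tail b) (T.head b) x ∧ T.EP ∅ b x := by
  classical
  have hst : T.tail b ≠ T.head b := T.tail_ne_head b
  refine ⟨fun i v => if i = 0 then 0 else if i = 1 then (if v = T.tail b then 1 else 0)
    else (if v = T.head b then 1 else 0), ?_, ?_, ?_⟩
  · have hv : ∀ v, ¬ T.InV ∅ v := by
      rintro v ⟨f, hf, _⟩
      exact absurd hf (Finset.notMem_empty f)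
    refine ⟨by simp, by simp, by simp, by simp [hst.symm], by simp [hst], by simp, ?_, ?_, ?_, ?_, ?_⟩
    · intro v h
      exact absurd h (hv v)
    · intro v h
      exact absurd h (hv v)
    · intro v h
      exact absurd h (hv v)
    · intro d h
      exact absurd h.1 (Finset.notMem_empty _)
    · intro f h
      exact absurd h (Finset.notMem_empty _)
  · intro f hf
    exact absurd hf (Finset.notMem_empty f)
  · intro e he
    exact absurd he.1 (Finset.notMem_empty _)

private theorem w7_aux (n : ℕ) : ∀ (S : Finset F), S.card = n → T.Disk S → ∀ b : Dart F, T.Bd S b →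
    ∃ x, T.Rz S (T.tail b) (T.head b) x ∧ T.FP S (T.tail b) (T.head b) x ∧ T.EP S b x := by
  classical
  induction n using Nat.strong_induction_on with
  | _ n ih =>
    intro S hcard hS b hb
    have ih' : ∀ S' : Finset F, S' ⊂ S → T.Disk S' → ∀ b : Dart F, T.Bd S' b →
        ∃ x, T.Rz S' (T.tail b) (T.head b) x ∧ T.FP S' (T.tail b) (T.head b) x ∧ T.EP S' b x := by
      intro S' hss hD b' hb'
      exact ih S'.card (hcard ▸ Finset.card_lt_card hss) S' rfl hD b' hb'
    obtain ⟨dv, hdv, hdvh⟩ := T.exists_in S b hb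
    obtain ⟨dz, hdz, hdzh⟩ := T.exists_in S dv hdv
    by_cases hA : ∃ d, T.tail d = T.tail dv ∧ d.1 ∈ S ∧ (T.op d).1 ∈ S ∧ ∃ e, T.Bd S e ∧ T.tail e = T.head d
    · obtain ⟨d, hd1, hd2, hd3, hd4⟩ := hA
      obtain ⟨Q, e, hQS, _, heQ, he1, he2, hbQ, hQ⟩ :=
        T.split_exists S hS b hb d hd2 hd3 ⟨dv, hdv, hd1.symm⟩ hd4
      have hDQ : T.Disk Q := T.subdisk S hS Q e hQS heQ he1 he2 hQ
      have hDQ' : T.Disk (S \ Q) := by
        refine T.subdisk S hS (S \ Q) (T.op e) Finset.sdiff_subset ?_ ?_ ?_ ?_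
        · exact Finset.mem_sdiff.2 ⟨he1, he2⟩
        · rw [T.op_op]
          exact hQS heQ
        · rw [T.op_op]
          exact fun hc => (Finset.mem_sdiff.1 hc).2 heQ
        · rintro d' ⟨h1, h2⟩
          have h1' := Finset.mem_sdiff.1 h1
          by_cases h3 : (T.op d').1 ∈ S
          · have h4 : (T.op d').1 ∈ Q := by
              by_contra hc
              exact h2 (Finset.mem_sdiff.2 ⟨h3, hc⟩)
            have h5 : T.Bd Q (T.op d') := ⟨h4, by rw [T.op_op]; exact h1'.2⟩
            rcases hQ _ h5 with h6 | h6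
            · left
              rw [← h6, T.op_op]
            · exfalso
              have := h6.2
              rw [T.op_op] at this
              exact this h1'.1
          · right
            exact ⟨h1'.1, h3⟩
      have hs1 : Q ⊂ S := by
        refine Finset.ssubset_iff_subset_ne.2 ⟨hQS, ?_⟩
        rintro rfl
        exact he2 he1
      have hs2 : S \ Q ⊂ S := by
        refine Finset.ssubset_iff_subset_ne.2 ⟨Finset.sdiff_subset, ?_⟩
        intro hc
        have : e.1 ∈ S \ Q := hc.symm ▸ hQS heQ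
        exact (Finset.mem_sdiff.1 this).2 heQ
      obtain ⟨y', hy', hF', hE'⟩ := ih' Q hs1 hDQ e ⟨heQ, he2⟩
      obtain ⟨y, hy, hF, hE⟩ := ih' (S \ Q) hs2 hDQ' b
        ⟨Finset.mem_sdiff.2 ⟨hb.1, hbQ⟩, fun hc => hb.2 (Finset.mem_sdiff.1 hc).1⟩
      have hcom : ∀ x f g, f ∈ Q → T.At f x → g ∈ S → g ∉ Q → T.At g x → x = T.tail e ∨ x = T.head e := by
        intro x f g hf hfx hg hgQ hgx
        exact T.common S hS Q e hQS hQ x f g hf hfx hg hgQ hgx
      obtain ⟨x, hx, lQ, lS⟩ := T.combine2 S Q b e hb hbQ hQS heQ he1 he2 hcom y y' (by convert hy) hy'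
      have hSA : T.SA S Q b e y y' x := by
        refine ⟨hb, hbQ, hQS, heQ, he1, he2, ?_, by convert hy, hy', hx, lQ, lS⟩
        rintro v ⟨f, hf, hfv⟩ ⟨g, hg, hgv⟩
        have hg' := Finset.mem_sdiff.1 hg
        exact hcom v f g hf hfv hg'.1 hg'.2 hgv
      refine ⟨x, hx, ?_, ?_⟩
      · exact T.caseA_FP hSA hF' (by convert hF) (by convert hE)
      · exact T.caseA_EP hSA hE' (by convert hE)
    · have hNC : T.NC S b dv dz :=
        ⟨hS, hb, hdv, hdvh, hdz, hdzh, fun d h1 h2 h3 h4 => hA ⟨d, h1, h2, h3, h4⟩⟩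
      have key : ∃ y, T.Rz (T.far S (T.tail dv)) (T.tail b) (T.head b) y ∧
          T.FP (T.far S (T.tail dv)) (T.tail b) (T.head b) y ∧ T.EP (T.far S (T.tail dv)) b y := by
        rcases T.far_cases hNC with ⟨_, hfar, _⟩ | hbf
        · rw [hfar]
          exact w7_empty T b
        · have hDf : T.Disk (T.far S (T.tail dv)) :=
            ⟨fun d e h1 h2 h3 => T.far_simple hNC d e h1 h2 h3, fun c hc hs => T.far_h1 hNC c hc hs,
              fun P hP hB => T.far_h0 hNC P hP hB⟩
          have hsub : T.far S (T.tail dv) ⊂ S := by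
            refine Finset.ssubset_iff_subset_ne.2 ⟨?_, ?_⟩
            · unfold far
              exact Finset.filter_subset _ _
            · intro hc
              have h1 : dv.1 ∈ T.far S (T.tail dv) := hc.symm ▸ hdv.1
              unfold far at h1
              exact (Finset.mem_filter.1 h1).2 ⟨dv.2, rfl⟩
          exact ih' _ hsub hDf b hbf
      obtain ⟨y, hy, hF, hE⟩ := key
      obtain ⟨x, hx, lf, ln⟩ := T.extend2 hNC y hy
      have hSB : T.SB S b dv dz y x := ⟨hNC, hy, hx, lf, ln⟩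
      exact ⟨x, hx, T.caseB_FP hSB hF hE, T.caseB_EP hSB hE⟩

theorem rz2 (S : Finset F) (hS : T.Disk S) (b : Dart F) (hb : T.Bd S b) :
    ∃ x, T.Rz S (T.tail b) (T.head b) x ∧ T.FP S (T.tail b) (T.head b) x ∧ T.EP S b x :=
  w7_aux T S.card S rfl hS b hb

end LS35.Tri
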